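import Pool.Agent.Q82.QD.Stm

/-!
# The profile as a function on `ℝ⁴`
-/

set_option autoImplicit false

open MeasureTheory Filter Topology Real InnerProductSpace Laplacian Set
open Pool.Agent.Q82.QC (E)

namespace Q130.QD.ETA

open Pool.Agent.Q82.QD

lemma inner_add {g : ℝ → ℝ} (hg : Continuous g) (c s : ℝ) :
    (∫ θ in (0 : ℝ)..1, θ / 4 * (8 * c + g (θ * s))) = c + ∫ θ in (0 : ℝ)..1, θ / 4 * g (θ * s) := by
  have h1 : ∀ θ : ℝ, θ / 4 * (8 * c + g (θ * s)) = (2 * c) * θ + θ / 4 * g (θ * s) := by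
    intro θ
    ring
  simp_rw [h1]
  rw [intervalIntegral.integral_add]
  · rw [intervalIntegral.integral_const_mul, integral_id]
    ring
  · exact (continuous_const.mul continuous_id).intervalIntegrable _ _
  · exact ((continuous_id.div_const 4).mul
      (hg.comp (continuous_id.mul continuous_const))).intervalIntegrable _ _

lemma Lop_add (h4 : S_LOP) {g : ℝ → ℝ} (hg : Continuous g) (c s : ℝ) :
    Lop (fun t => 8 * c + g t) s = c * s + Lop g s := by
  have hk : Continuous (fun t => 8 * c + g t) := continuous_const.add hg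
  have hd : ∀ s, HasDerivAt (fun s => Lop (fun t => 8 * c + g t) s - (c * s + Lop g s)) 0 s := by
    intro s
    have e1 := (h4 _ hk).2.1 s
    have e2 := (h4 g hg).2.1 s
    have e3 : HasDerivAt (fun s : ℝ => c * s) c s := by
      simpa using (hasDerivAt_id s).const_mul c
    have e4 := e1.sub (e3.add e2)
    rw [inner_add hg c s, sub_self] at e4
    exact e4
  have hc := is_const_of_deriv_eq_zero (fun s => (hd s).differentiableAt) (fun s => (hd s).deriv) s 0
  simp only [Lop, intervalIntegral.integral_same, mul_zero, add_zero, sub_self] at hc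
  simp only [Lop]
  linarith

theorem eta (h1 : S_RAD) (h2 : S_SMF) (h3 : S_LSM) (h4 : S_LOP) : S_ETA := by
  intro F hF
  have hFc : Continuous F := hF.1
  set f : ℝ → ℝ := fun t => 6 * Real.exp (4 * F t) with hf
  have hfc : Continuous f := by fun_prop
  have hfs : ∀ n : ℕ, ContDiffOn ℝ n f (Ici 0) := by
    intro n
    exact contDiffOn_const.mul ((contDiffOn_const.mul (h2 F hF n)).exp)
  have hgc : Continuous (Lop f) := (h4 f hfc).1
  have hgs : ∀ n : ℕ, ContDiffOn ℝ n (Lop f) (Ici 0) := by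
    intro n
    refine (h3 f hfc n (hfs n)).of_le ?_
    exact_mod_cast Nat.le_succ n
  set c : ℝ := -(1 + qq) with hc
  set k : ℝ → ℝ := fun t => 8 * c + Lop f t with hk
  have hkc : Continuous k := continuous_const.add hgc
  have hks : ∀ n : ℕ, ContDiffOn ℝ n k (Ici 0) := fun n => contDiffOn_const.add (hgs n)
  have hFe : (fun y : E => F (‖y‖ ^ 2)) = fun y : E => Real.log 2 + Lop k (‖y‖ ^ 2) := by
    funext y
    rw [hF.2.1 (‖y‖ ^ 2) (sq_nonneg _), hk, Lop_add h4 hgc, hc]
    ring
  obtain ⟨hk1, hk2⟩ := h1 k hkc hks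
  obtain ⟨hf1, hf2⟩ := h1 f hfc hfs
  have hfirst : Δ (fun y : E => F (‖y‖ ^ 2)) = fun y : E => 8 * c + Lop f (‖y‖ ^ 2) := by
    funext y
    rw [hFe]
    have := ContDiffAt.laplacian_add (f₁ := fun _ : E => Real.log 2)
      (f₂ := fun y : E => Lop k (‖y‖ ^ 2)) (x := y) contDiffAt_const (hk1 2).contDiffAt
    rw [laplacian_const] at this
    have h5 : ((fun _ : E => Real.log 2) + fun y : E => Lop k (‖y‖ ^ 2)) =
        fun y : E => Real.log 2 + Lop k (‖y‖ ^ 2) := rfl
    rw [h5] at this
    rw [this, hk2 y]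
    simp [hk]
  refine ⟨?_, ?_⟩
  · intro n
    rw [hFe]
    exact contDiff_const.add (hk1 n)
  · intro y
    rw [hfirst]
    have := ContDiffAt.laplacian_add (f₁ := fun _ : E => 8 * c)
      (f₂ := fun y : E => Lop f (‖y‖ ^ 2)) (x := y) contDiffAt_const (hf1 2).contDiffAt
    rw [laplacian_const] at this
    have h5 : ((fun _ : E => 8 * c) + fun y : E => Lop f (‖y‖ ^ 2)) =
        fun y : E => 8 * c + Lop f (‖y‖ ^ 2) := rfl
    rw [h5] at this
    rw [this, hf2 y]
    simp [hf]

end Q130.QD.ETA
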